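import Pool.Agent.Q120.KMFDefs
import Pool.Agent.Q120.KMFLimit

/-!
# Every `(𝒜, ℬ)`-expanding subset of a discrete abelian group supports a KMF mean

The definitions are in `Pool/Agent/Q120/KMFDefs.lean`.
-/

namespace Pool.Agent.Results.MP_49446c_co.ExpandingSupportsKMF

open Q120.KMF

/-- Let `G` be a discrete abelian group and let `S ⊆ G` satisfy `d^*(S ∩ B) > 0` for every Bohr
set `B`.  Then some KMF mean `m` is supported on `S`; moreover `m` can be chosen with
`m(1_B) = 1` for every Bohr set `B`. -/
theorem result {G : Type*} [CommGroup G] [TopologicalSpace G] [DiscreteTopology G]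
    [MeasurableSpace (PontryaginDual G)] [BorelSpace (PontryaginDual G)]
    (S : Set G) (hS : Expanding S) :
    ∃ m : Mean G, m.SupportedOn S ∧ m.IsKMF ∧ ∀ B : Set G, IsBohr B → m.SupportedOn B :=
  expanding_supports S hS

end Pool.Agent.Results.MP_49446c_co.ExpandingSupportsKMF
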